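import Pool.Agent.Q55.Ke.Main

/-!
# The standard conjecture of Hodge type for the cycles generated by the cycles on one power

Let `X` be a smooth projective variety in any characteristic, with a divisor `D` with
`deg D ^ dim X > 0` which satisfies the hard Lefschetz theorem, let `b` be the sum of the Betti
numbers of `X`, and let `L ≥ 3`. Suppose that

* the standard conjecture of Hodge type holds for the single variety `X^L`, and
* numerical and homological equivalence coincide on the single variety `X^(L + 2 b² + 1)`.

Then the standard conjecture of Hodge type holds, on **all powers of `X`**, for all cycles which are
generated by the cycles on `X^L`: for every such primitive cycle `z` of codimension `j` on `X^n`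
whose class is not zero the sign of `deg (z · z · D ^ (d - 2 j))` is `(-1) ^ j`, `d = n dim X`. Here
a cycle is generated by the cycles on `X^L` if its class belongs to every family of spaces of classes
on the powers of `X` which contains the classes of the cycles on `X^L` and is closed under cup
products, and under pull-backs and push-forwards along the morphisms `x ↦ (x_(σ 0), x_(σ 1), …)`
between the powers of `X` (projections, permutations, diagonals). So if the cycles on all powers of
`X` are generated by the cycles on `X^L`, the conjecture for all powers of `X` is reduced to a
conjecture about the single variety `X^L`.

The coefficient field of the cohomology theory is supposed to embed into the complex numbers, as the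
field of `l`-adic numbers does.

The idea of the proof: after the extension of the coefficients to the complex numbers we choose a
basis of `H(X)` for which the matrix of the Hodge-Riemann form is unitary. Let `T` be the system of
tensors generated by the classes of the cycles on the powers `X^m`, `m ≤ M`, where `M` is so large
that the Lie algebra of the stabiliser of these tensors is stable. By the hypothesis on numerical
equivalence the stabiliser is reductive, and the orbit of these tensors under the complex group of
the form is closed, so that it contains a vector of minimal length. The real structure given by the
classes of cycles and the real structure given by the form differ at this vector by an element `k` of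
the group, which is unitary by the lemma of Kempf and Ness, and the Hodge-Riemann form on the tensors
of `T` is the hermitian product twisted by `k`. By the hypothesis of positivity `k` fixes the classes
of all cycles on `X^L`, and therefore everything which is generated by them.
-/

open CategoryTheory AlgebraicGeometry

universe u

namespace Pool.Agent.Results.MP_361a6f_ag.GeneratedPositivity

open Pool.Agent.H914 Pool.Agent.H914.VarClass.Obj
open Pool.Agent.Y133.Half (pw)
open Pool.Agent.Q55 (pwDiv)
open Pool.Agent.W552 (HodgeTypeOn)
open Pool.Agent.Q60.NP (genCycles)

variable {k : Type u} [Field k] {𝒱 : VarClass k} {ops : CycleOps 𝒱}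

/-- **The standard conjecture of Hodge type for the cycles on all powers which are generated by the
cycles on one power.** Here `pw X n` is the product of `n + 1` copies of `X`, and `pwDiv ops D n` is
the sum of the pull-backs of `D`. -/
theorem result (W : WeilCohomology.{u, 0} ops) (hσ : Nonempty (W.K →+* ℂ)) (X : 𝒱.Obj)
    (D : X.Cycles) (hD : X.IsCyc 1 D)
    (hdeg : 0 < X.V.degCycle (divPow ops D X.dim X.V.fundCycle)) (hHL : HardLefschetz W X D)
    (b L : ℕ) (hb : Module.finrank W.K (W.H X) = b) (hL : 3 ≤ L)
    (hnum : HomEqNum W (pw X (L + 2 * b ^ 2)))
    (hH : HodgeType W (pw X (L - 1)) (pwDiv ops D (L - 1))) :
    (∀ n, HodgeTypeOn W (pw X n) (pwDiv ops D n) (genCycles W X (L - 1) n)) ∧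
    ((∀ n j z, (pw X n).IsCyc j z → W.cl (pw X n) z ∈ genCycles W X (L - 1) n) →
      ∀ n, HodgeType W (pw X n) (pwDiv ops D n)) := by
  subst hb
  have h1 : L - 1 + 2 * Module.finrank W.K (W.H X) ^ 2 + 1 =
      L + 2 * Module.finrank W.K (W.H X) ^ 2 := by omega
  have key : ∀ n, HodgeTypeOn W (pw X n) (pwDiv ops D n) (genCycles W X (L - 1) n) := fun n =>
    Pool.Agent.Q55.Ke.main hσ hD hdeg hHL (by omega) (by rw [h1]; exact hnum) hH n
  exact ⟨key, fun h n j hj z hz => key n j hj z hz (h n j z hz)⟩

end Pool.Agent.Results.MP_361a6f_ag.GeneratedPositivity
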