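import Pool.Agent.Q59.TC.Fro
import Pool.Agent.Q59.TC.Lef

/-!
# The conjecture of Hodge type for `Z × C ^ n`, `C` a random Galois cover, `Z` an arbitrary variety

Let `Z` be a smooth projective variety over a finite field `𝔽` of characteristic `p`, with a polarization,
and let `G` be a finite group of order prime to `p`. Let `𝒮 → B` be a family of smooth projective curves of
genus `g ≥ 0` with disjoint sections `a_1, ..., a_r`, over a smooth geometrically connected scheme `B` of
finite type over `𝔽` which dominates the moduli space of `r`-pointed curves, and `𝒞 → 𝒮` a family of Galois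
covers with the group `G`, ramified only over the `a_j`, with ramification indices which divide `N`. For a
closed point `b` of `B` let `C` be the fibre of `𝒞` at `b`, a curve over the residue field of `b`, which has
`q` elements, and let `X = Z × C ^ n`, with the sum of the polarization of `Z` and of the classes of points of
the factors `C` as polarization. The results hold for all closed points `b` outside a set of density zero,
and for the cycles on `X` over the algebraic closure of `𝔽` modulo homological equivalence, for any Weil
cohomology theory, as in Q1. **Nothing is assumed on `Z`** except the conjecture of Hodge type itself: no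
conjecture of Lefschetz type, no equality of homological and numerical equivalence, no semisimplicity of
the Frobenius.

**Exotic classes.** `H ^ 1 (C)` is the direct sum of the `χ ⊗ V_χ`, where `χ` runs through the irreducible
representations of `G` and `V_χ` is the first cohomology of a local system on the pointed curve; the
determinants of the `V_χ` of complex type give Weil classes on the powers of `C`, which are not
generated by divisors and whose codimension tends to infinity with the genus.

**The Lefschetz modules.** `Lef` (a space with a grading `G`, a Lefschetz operator `L` and a hermitian form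
`B`) is used for the cycles modulo homological equivalence with complex coefficients; `Lef.Good` is the
positivity of the form `(-1) ^ c x̄ · x · L ^ (dim - 2 c)` on the primitive elements, for all `c ≤ dim / 2`.
For a product with a projective line (`Lef.line`) it is proved in `Q59/TC/Lef.lean` that the positivity
for `Z` implies the positivity for `Z × ℙ ^ 1`.

**Parts.** The notation for local systems and the facts about the Frobenius are those of
`MP_0f183b_ag.RandomCoversTimesVarieties`: the letters are eigenvectors of the Frobenius, and form bases of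
the spaces `V_i`, `π` are the eigenvalues of the letters, `Λ` is the set of the eigenvalues of the
Frobenius on the cohomology of `Z`; for all `b` outside a set of density zero the Frobenius torus
contains a maximal torus of the automorphism group `D` of the spaces `V_i` (Serre; Chi; monodromy:
Boggi, Looijenga, Landesman, Litt, Sawin), which acts trivially on the cohomology of `Z`, and this
gives the structure `Frobenius`. By the theorem of Tate on endomorphisms the motive of `C` with complex
coefficients is the sum of `1`, of the Lefschetz motive, on which the class of a point acts as on the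
projective line, and of motives of rank one `M_x` which belong to the letters. So the space of the cycles on
`X` is the orthogonal sum of the spaces `P j` of the cycles of the motives `h(Z × (ℙ ^ 1) ^ m) ⊗ M_w`,
`m = lines j`, `w = word j`, where `M_w` is the tensor product of the motives of the letters of the word `w`.
The Frobenius acts on the cycles of codimension `c` as `q ^ c`, and a power of the product of the
`F - α π_w`, `α ∈ Λ`, annihilates the motive (Cayley, Hamilton). Suppose that `w` consists of pairs and full
blocks (all letters of a space `V_(μ j)` once). Then `M_w` is a Tate twist of the motive of rank one `M_u`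
of a Fermat variety which belongs to the character `u = exAll μ` (Schoen; Brauer), and the hermitian forms
of both agree up to a positive number: the form of a pair is positive (Weil), the blocks and the
isomorphism lift to characteristic zero with the cover (for cyclic covers of the projective line it is the
pull-back by a morphism from `C ^ d` to a quotient of the Fermat variety), where both forms satisfy the
Hodge-Riemann relations. So the form is positive for `w` if it is positive for `h(Z × (ℙ ^ 1) ^ m) ⊗ M_u`,
where `F u` is the space of the cycles of `h(Z) ⊗ M_u`; if `u` is empty this is the form of `Z`, and if `u`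
is the character of an algebraic line it is the form of `Z` times the sign `ε u` of the line. The signs of
the algebraic lines on Fermat varieties have the properties of `Signs` (see
`MP_ffcd14_ag.FermatPositivity`: Hodge index theorem, Hodge-Riemann relations for classes which lift,
Shioda and Katsura). These facts form the structure `Cycles`.

**The theorem.** The conjecture of Hodge type holds for `Z × C ^ n`, for all `n`, in the following cases.

(1) It holds for the products of `Z` with Fermat varieties of degree `N`.

(2) It holds for `Z`, and the covers are unramified.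

(3) It holds for `Z`, the cohomology of `Z` contains no nontrivial Weil numbers of Fermat type
(`IntegralSlopes`), and `N ≤ 54`, or `N` is a `GoodDegree`, or a power of `p` is minus one modulo all odd
primes dividing `N`.
-/

namespace Pool.Agent.Results.MP_361a6f_ag.RandomCoversTimesVarieties

open Pool.Agent.Q59.GC Pool.Agent.Q59.TC Pool.Agent.Q59.TC.Sys Pool.Agent.Q59.TC.Res
  Pool.Agent.Q59.TC.Fro Pool.Agent.Q59.TC.HR
open Pool.Agent.H916T (SurfaceTate Standard)

/-- The properties of the signs of the hermitian form on the lines of algebraic classes on Fermat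
varieties in characteristic `p`. -/
structure Signs (p : ℕ) (A : ∀ M : ℕ, Multiset (ZMod M) → Prop)
    (ε : ∀ M : ℕ, Multiset (ZMod M) → ℤˣ) : Prop where
  /-- the entries of the characters are not zero -/
  ne : ∀ M, 0 < M → p.Coprime M → ∀ s, A M s → (0 : ZMod M) ∉ s
  /-- pairs -/
  pair : ∀ M, 0 < M → p.Coprime M → ∀ a : ZMod M, a ≠ 0 → ε M {a, -a} = 1
  /-- surfaces (Hodge index theorem) -/
  surface : ∀ M, 0 < M → p.Coprime M → ∀ s, SurfaceTate p M s → ε M s = 1
  /-- standard characters (Hodge-Riemann relations in characteristic zero) -/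
  standard : ∀ M, 0 < M → p.Coprime M → ∀ q : ℕ, q.Prime → q ∣ M → ∀ s, Standard q M s → ε M s = 1
  /-- algebraic lines in characteristic zero (Hodge-Riemann relations) -/
  hodge : ∀ M, 0 < M → p.Coprime M → ∀ s, Pool.Agent.H916R2.IsHodge M s → s ≠ 0 →
    AlgebraicLine M s → ε M s = 1
  /-- unions -/
  join : ∀ M, 0 < M → p.Coprime M → ∀ s t, A M s → A M t → ε M (s + t) = ε M s * ε M t
  /-- pull-back -/
  level : ∀ M N, 0 < M → 0 < N → p.Coprime M → p.Coprime N → ∀ s : Multiset (ZMod M), A M s →
    ε (N * M) (s.map fun a => ((N * a.val : ℕ) : ZMod (N * M))) = ε M s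

/-- The cycles on `Z` and on `X = Z × C ^ n`, the cycles `F u` of `h(Z) ⊗ M_u`, `u` a Fermat character, and
the orthogonal parts `P j` of the cycles on `X`, which belong to the motives `h(Z × (ℙ ^ 1) ^ (lines j)) ⊗
M_w`, `w = word j`, with the operator of the Frobenius, which acts as `q ^ c` in codimension `c` and is
annihilated by a power of the product of the `F - α π_w`. The form is positive for a decomposed word if it
is positive for the product with `(ℙ ^ 1) ^ (lines j)` of the Fermat character; it is positive for the
empty character and for algebraic lines of sign one if it is positive for `Z`. -/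
structure Cycles {N : ℕ} {I : Type} {S : LocalSystems N I} {p : ℕ} (Φ : Frobenius S p)
    (A : ∀ M : ℕ, Multiset (ZMod M) → Prop) (ε : ∀ M : ℕ, Multiset (ZMod M) → ℤˣ) where
  Z : Lef
  X : Lef
  F : Multiset (ZMod N) → Lef
  J : Type
  [finJ : Fintype J]
  lines : J → ℕ
  len : J → ℕ
  word : ∀ j : J, Fin (len j) → Letter S.labels
  P : J → Lef
  frob : ∀ j, (P j).M →ₗ[ℂ] (P j).M
  dim_eq : ∀ j, (P j).dim = X.dim
  parts : X.M ≃ₗ[ℂ] ∀ j, (P j).M
  parts_mem : ∀ c x, x ∈ X.G c → ∀ j, parts x j ∈ (P j).G c
  parts_L : ∀ x j, parts (X.L x) j = (P j).L (parts x j)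
  parts_B : ∀ x y, X.B x y = ∑ j, (P j).B (parts x j) (parts y j)
  scalar : ∀ j c, ∀ x ∈ (P j).G c, frob j x = (Φ.q : ℂ) ^ c • x
  nilpotent : ∀ j, ∃ m : ℕ, Polynomial.aeval (frob j)
    ((∏ α ∈ Φ.Λ, (Polynomial.X - Polynomial.C ((α : ℂ) * ∏ k, (Φ.π (word j k) : ℂ)))) ^ m) = 0
  decomposed : ∀ (j : J) (l r : ℕ) (μ : Fin l → I)
    (e : (Σ i : Fin l, Fin (S.labels.dim (μ i))) ⊕ (Fin r × Fin 2) ≃ Fin (len j)),
    IsDecomposed (word j) μ e → ((F (exAll S.labels μ)).lines (lines j)).Good → (P j).Good
  line : ∀ u : Multiset (ZMod N), (u = 0 ∨ A N u ∧ ε N u = 1) → Z.Good → (F u).Good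

attribute [instance] Cycles.finJ

section

variable {N : ℕ} {I : Type} {S : LocalSystems N I} {p : ℕ} {Φ : Frobenius S p}
  {A : ∀ M : ℕ, Multiset (ZMod M) → Prop} {ε : ∀ M : ℕ, Multiset (ZMod M) → ℤˣ}

/-- the algebraic lines of sign one form an admissible family -/
lemma positive_admissible (hA : Admissible p A) (hε : Signs p A ε) :
    Admissible p fun M s => A M s ∧ ε M s = 1 where
  pair M hM hpM a ha := ⟨hA.pair M hM hpM a ha, hε.pair M hM hpM a ha⟩
  surface M hM hpM s hs := ⟨hA.surface M hM hpM s hs, hε.surface M hM hpM s hs⟩
  standard M hM hpM q hq hqM s hs := ⟨hA.standard M hM hpM q hq hqM s hs,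
    hε.standard M hM hpM q hq hqM s hs⟩
  hodge M hM hpM s hs hne h := ⟨hA.hodge M hM hpM s hs hne h, hε.hodge M hM hpM s hs hne h⟩
  join M hM hpM s t hs ht := ⟨hA.join M hM hpM s t hs.1 ht.1, by
    rw [hε.join M hM hpM s t hs.1 ht.1, hs.2, ht.2, one_mul]⟩
  cancel M hM hpM a s h := by
    have h1 : A M s := hA.cancel M hM hpM a s h.1
    refine ⟨h1, ?_⟩
    by_cases ha : a = 0
    · exact absurd (hε.ne M hM hpM _ h.1) (by
        rw [ha]; exact not_not.mpr (Multiset.mem_cons_self _ _))
    · have h2 := hε.join M hM hpM {a, -a} s (hA.pair M hM hpM a ha) h1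
      rw [hε.pair M hM hpM a ha, one_mul, Multiset.insert_eq_cons, Multiset.cons_add,
        Multiset.singleton_add] at h2
      rw [← h2]
      exact h.2
  descend M N hM hN hpM hpN s h := by
    have h1 := hA.descend M N hM hN hpM hpN s h.1
    exact ⟨h1, by rw [← hε.level M N hM hN hpM hpN s h1]; exact h.2⟩

/-- without a resonance there are no cycles -/
lemma good_of_no_resonance (T : Cycles Φ A ε) (j : T.J)
    (h : ¬ ∃ c : ℕ, ∃ α ∈ Φ.Λ, α * ∏ k, Φ.π (T.word j k) = (Φ.q : Ints) ^ c) : (T.P j).Good := by
  push Not at h
  obtain ⟨m, hm⟩ := T.nilpotent j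
  intro c e _ x hx _ hne
  refine absurd ?_ hne
  have h2 : Polynomial.aeval (T.frob j)
    ((∏ α ∈ Φ.Λ, (Polynomial.X - Polynomial.C ((α : ℂ) * ∏ k, (Φ.π (T.word j k) : ℂ)))) ^ m) x = 0 := by
    rw [hm, LinearMap.zero_apply]
  rw [aeval_eigen _ _ _ (T.scalar j c x hx)] at h2
  refine (smul_eq_zero.mp h2).resolve_left ?_
  rw [Polynomial.eval_pow, Polynomial.eval_prod]
  refine pow_ne_zero _ (Finset.prod_ne_zero_iff.mpr fun α hα => ?_)
  rw [Polynomial.eval_sub, Polynomial.eval_X, Polynomial.eval_C, sub_ne_zero]
  intro h3
  refine h c α hα (Subtype.ext ?_)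
  push_cast
  exact h3.symm

lemma parts_pow (T : Cycles Φ A ε) (n : ℕ) (x : T.X.M) (j : T.J) :
    T.parts ((T.X.L ^ n) x) j = ((T.P j).L ^ n) (T.parts x j) := by
  induction n with
  | zero => rfl
  | succ n ih => rw [pow_succ', Module.End.mul_apply, T.parts_L, ih, ← Module.End.mul_apply,
      ← pow_succ']

/-- positivity of all parts is positivity -/
lemma good_of_parts (T : Cycles Φ A ε) (h : ∀ j, (T.P j).Good) : T.X.Good := by
  classical
  intro c e hce x hx hprim hne
  rw [T.parts_B, Complex.re_sum, Finset.mul_sum]
  have hpos : ∀ j : T.J, T.parts x j ≠ 0 → 0 < (-1) ^ c *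
      ((T.P j).B (T.parts x j) (T.parts ((T.X.L ^ e) x) j)).re := by
    intro j hj
    rw [parts_pow]
    refine h j c e (by rw [T.dim_eq]; exact hce) _ (T.parts_mem c x hx j) ?_ hj
    rw [← parts_pow, hprim, map_zero]
    rfl
  have hnn : ∀ j : T.J, 0 ≤ (-1) ^ c *
      ((T.P j).B (T.parts x j) (T.parts ((T.X.L ^ e) x) j)).re := by
    intro j
    by_cases hj : T.parts x j = 0
    · rw [hj, map_zero, LinearMap.zero_apply, Complex.zero_re, mul_zero]
    · exact (hpos j hj).le
  have hex : ∃ j : T.J, T.parts x j ≠ 0 := by
    by_contra hcon
    push Not at hcon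
    exact hne (T.parts.map_eq_zero_iff.mp (funext hcon))
  obtain ⟨j, hj⟩ := hex
  exact Finset.sum_pos' (fun j _ => hnn j) ⟨j, Finset.mem_univ j, hpos j hj⟩

end

/-- **The conjecture of Hodge type for the products of an arbitrary variety with powers of random Galois
covers of pointed curves over finite fields.** -/
theorem result (p : ℕ) (hp : p.Prime) (N : ℕ) [NeZero N] (hpN : p.Coprime N) (I : Type) [Fintype I]
    (S : LocalSystems N I) (Φ : Frobenius S p) (A : ∀ M : ℕ, Multiset (ZMod M) → Prop)
    (ε : ∀ M : ℕ, Multiset (ZMod M) → ℤˣ) (hA : Admissible p A) (hε : Signs p A ε)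
    (T : Cycles Φ A ε) :
    ((∀ u, (T.F u).Good) → T.X.Good) ∧
    ((∀ i, S.ex i = 0) → T.Z.Good → T.X.Good) ∧
    (IntegralSlopes Φ → KnownDegree p N → T.Z.Good → T.X.Good) := by
  refine ⟨fun hF => good_of_parts T fun j => ?_, fun hex hZ => good_of_parts T fun j => ?_,
    fun hInt hN hZ => good_of_parts T fun j => ?_⟩
  · by_cases h : ∃ c : ℕ, ∃ α ∈ Φ.Λ, α * ∏ k, Φ.π (T.word j k) = (Φ.q : Ints) ^ c
    · obtain ⟨c, hc⟩ := h
      obtain ⟨-, l, r, μ, e, hdec, -⟩ := Φ.resonance hp hpN c _ (T.word j) hc
      exact T.decomposed j l r μ e hdec (Lef.lines_good _ (hF _) _)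
    · exact good_of_no_resonance T j h
  · by_cases h : ∃ c : ℕ, ∃ α ∈ Φ.Λ, α * ∏ k, Φ.π (T.word j k) = (Φ.q : Ints) ^ c
    · obtain ⟨c, hc⟩ := h
      obtain ⟨-, l, r, μ, e, hdec, -⟩ := Φ.resonance hp hpN c _ (T.word j) hc
      have h0 : exAll S.labels μ = 0 := Finset.sum_eq_zero fun i _ => hex (μ i)
      exact T.decomposed j l r μ e hdec (Lef.lines_good _ (T.line _ (Or.inl h0) hZ) _)
    · exact good_of_no_resonance T j h
  · by_cases h : ∃ c : ℕ, ∃ α ∈ Φ.Λ, α * ∏ k, Φ.π (T.word j k) = (Φ.q : Ints) ^ c
    · obtain ⟨c, hc⟩ := h
      obtain ⟨-, l, r, μ, e, hdec, hl⟩ := Φ.resonance hp hpN c _ (T.word j) hc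
      have h1 := hl hInt hN _ (positive_admissible hA hε)
      exact T.decomposed j l r μ e hdec (Lef.lines_good _ (T.line _ (Or.inr h1) hZ) _)
    · exact good_of_no_resonance T j h

end Pool.Agent.Results.MP_361a6f_ag.RandomCoversTimesVarieties
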