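import Pool.Agent.Q55.Sy.Main

/-!
# The standard conjecture of Hodge type for the symmetric powers of `X × X`

Let `X` be a smooth projective variety in any characteristic, with a divisor `D` such that
`deg D ^ dim X > 0`; give the powers of `X` the divisors which are the sums of the pull-backs of `D`.
The group `S_n` acts on `(X × X)^n` by permutation of the `n` factors `X × X`; its order `n!` is
much smaller than the order `(2 n)!` of the group of all permutations of the `2 n` factors `X`. The
quotient is the symmetric power `Sym^n (X × X)`, whose cycles with rational coefficients are the
invariant ones.

**Theorem.** The standard conjecture of Hodge type holds for all powers of `X` if and only if it holds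
for all symmetric powers `Sym^n (X × X)`, that is, for the primitive algebraic classes on
`(X × X)^n` which are invariant under `S_n`. The same is true for the numerical version of the
conjecture (primitive cycles modulo numerical equivalence). No other standard conjecture is
supposed.

The idea of the proof. Every nonzero representation of the symmetric group `S_{2n}` on a vector space
over a field of characteristic zero has a nonzero vector which is fixed by the group `S_n` embedded
diagonally (a theorem of this repository, `Pool.Agent.Q56.SP.exists_diag`, proved with the involution
model of Inglis, Richardson and Saxl). We deduce that a symmetric bilinear form on a finite-dimensional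
rational representation of `S_{2n}`, invariant under `S_{2n}`, is positive definite as soon as it is
positive definite on the vectors fixed by the diagonal `S_n`: over the real numbers, compare it with
a positive definite invariant form; all eigenspaces of the comparison operator contain nonzero vectors
fixed by `S_n`, so all eigenvalues are positive. Then the odd powers are treated by descent from
`Y × X` to `Y`.
-/

open CategoryTheory AlgebraicGeometry

universe u v

namespace Pool.Agent.Results.MP_361a6f_ag.SymmetricSquares

open Pool.Agent.H914 Pool.Agent.H914.VarClass.Obj
open Pool.Agent.Q55.Sy (HodgeAll HodgeSym NumHodgeAll NumHodgeSym)

variable {k : Type u} [Field k] {𝒱 : VarClass k} {ops : CycleOps 𝒱}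

/-- **The standard conjecture of Hodge type for all powers of `X` is equivalent to the conjecture for
the symmetric powers of `X × X`**, for classes in a Weil cohomology and for cycles modulo numerical
equivalence. Here `pw X n` is the product of `n + 1` copies of `X`, and `pwDiv ops D n` is the sum of
the pull-backs of `D`. -/
theorem result (W : WeilCohomology.{u, v} ops) (X : 𝒱.Obj) (D : X.Cycles) (hD : X.IsCyc 1 D)
    (hdeg : 0 < X.V.degCycle (divPow ops D X.dim X.V.fundCycle)) :
    (HodgeSym W X D ↔ HodgeAll W X D) ∧ (NumHodgeSym ops X D ↔ NumHodgeAll ops X D) :=
  ⟨Pool.Agent.Q55.Sy.hom_iff W hD hdeg, Pool.Agent.Q55.Sy.num_iff W hD hdeg⟩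

end Pool.Agent.Results.MP_361a6f_ag.SymmetricSquares
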